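import Mathlib
import Pool.Agent.BOX.StmtsN

/-!
# Squad BOX, row FRN: the frame for `N ≥ 3`
-/

namespace Pool.Agent.BOX.H95

open Set Filter Topology MeasureTheory

theorem exd_sum {f : ℤ → ℂ} (hf : Exd f) : Summable fun n => ‖f n‖ := by
  obtain ⟨r, hr, hs⟩ := hf
  refine Summable.of_nonneg_of_le (fun n => norm_nonneg _) (fun n => ?_) hs
  have h1 : (1 : ℝ) ≤ r ^ n.natAbs := one_le_pow₀ hr.le
  nlinarith [norm_nonneg (f n)]

theorem hat_sum {f : ℤ → ℂ} (hf : Summable fun n => ‖f n‖) : Summable fun n => ‖hat f n‖ := by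
  have h2 : Summable fun n : ℤ => ‖f (-n)‖ := (Equiv.neg ℤ).summable_iff.mpr hf
  refine Summable.of_nonneg_of_le (fun n => norm_nonneg _) (fun n => ?_) (hf.add h2)
  unfold hat
  split_ifs with h h'
  · linarith [norm_nonneg (f (-n))]
  · rw [RCLike.norm_conj]
    linarith [norm_nonneg (f n)]
  · rw [norm_zero]
    positivity

theorem hat_odd {f : ℤ → ℂ} (hf : Oddf f) : Oddf (hat f) := by
  intro n hn
  unfold hat
  split_ifs with h h'
  · exact hf n hn
  · rw [hf (-n) (by rwa [odd_neg]), map_zero]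
  · rfl

theorem cl3_res {N : ℕ} (f : ℤ → ℂ) {g : G3 N} (hg : g ∈ (R3 : Set (G3 N))) :
    cl3 (pos f) g = f g.1 := by
  obtain ⟨h1, h2, h3⟩ := hg
  have : Odd g.1 ∧ ∀ i, |g.2 i| = |g.1| := ⟨h2, fun i => by rw [h3 i, abs_of_pos h1]⟩
  unfold cl3
  rw [if_pos this]
  unfold pos
  rw [if_pos h1]

theorem frn (_t3s : T3sStmt) (nrm : NrmStmt) (fmn : FmnStmt) (prn : PrnStmt) (inn : InnStmt)
    (gdn : GdnStmt) (cln : ClnStmt) : FrnStmt := by
  intro N l hN hl hD
  obtain ⟨w, ν, r, hw⟩ := prn N hN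
  obtain ⟨hdiv, hzero⟩ := nrm N l hN hl hD
  obtain ⟨gadd, gsmul, gt3, gdiv, gsum, gnz, gsm⟩ := gdn N l hN hl hdiv
  obtain ⟨cl1, cl2⟩ := cln N hN
  have hWexd : Exd (fun q => (w q : ℂ)) := by
    refine ⟨r, hw.r1, ?_⟩
    refine hw.sum.congr fun n => ?_
    rw [Complex.norm_real, Real.norm_eq_abs]
  have hWsum : Summable fun q => ‖(w q : ℂ)‖ := exd_sum hWexd
  have hWodd : Oddf (fun q => (w q : ℂ)) := by
    intro n hn
    show ((w n : ℝ) : ℂ) = 0
    rw [hw.odd n hn, Complex.ofReal_zero]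
  have hWhat : hat (fun q => (w q : ℂ)) = fun q => (w q : ℂ) := by
    funext n
    unfold hat
    split_ifs with h h'
    · rfl
    · rw [Complex.conj_ofReal, hw.even]
    · have h0 : n = 0 := by omega
      subst h0
      rw [hw.odd 0 (by decide), Complex.ofReal_zero]
  obtain ⟨hgW, hsW, hvW⟩ := cl1 _ hWexd hWodd
  have hgood2 : ∀ f : ℤ → ℂ, Good3 (cl3 (pos f) : G3 N → ℂ) →
      Good3 (fun g : G3 N => 2 * cl3 (pos f) g) := by
    intro f hf
    have := gsmul 2 _ hf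
    have e : (fun g : G3 N => ((2 : ℝ) : ℂ) * cl3 (pos f) g) =
      fun g : G3 N => 2 * cl3 (pos f) g := by
      funext g
      norm_num
    rwa [e] at this
  have hG0 := hgood2 _ hgW
  have hV0 : Vp (fun g : G3 N => 2 * cl3 (pos (fun q => (w q : ℂ))) g) =
      cl3 (fun q => (w q : ℂ)) := by
    rw [hvW, hWhat]
  -- the profile equation
  have hK : ∀ n : ℤ, Odd n → K1 (2 ^ N - 1) (3 ^ N - 2 ^ (N + 1) + 1) (fun q => (w q : ℂ))
      (fun q => (w q : ℂ)) (fun q => (w q : ℂ)) n = ((ν * w n : ℝ) : ℂ) := by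
    intro n hn
    rw [← hw.eq n hn]
    have e1 : T3 (fun q => (w q : ℂ)) (fun q => (w q : ℂ)) (fun q => (w q : ℂ)) n =
        ((T3 w w w n : ℝ) : ℂ) := by
      unfold T3
      rw [Complex.ofReal_tsum]
      refine tsum_congr fun h => ?_
      push_cast
      rfl
    have e2 : pr (fun q => (w q : ℂ)) (fun q => (w q : ℂ)) = ((∑' q, w q ^ 2 : ℝ) : ℂ) := by
      unfold pr
      rw [Complex.ofReal_tsum]
      refine tsum_congr fun q => ?_
      show ((w q : ℝ) : ℂ) * ((w (-q) : ℝ) : ℂ) = ((w q ^ 2 : ℝ) : ℂ)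
      rw [hw.even]
      push_cast
      ring
    unfold K1
    rw [e1, e2]
    simp only [hw.even]
    unfold cN
    push_cast
    ring
  have hodd : ∀ g ∈ (R3 : Set (G3 N)), Odd g.1 := fun g hg => hg.2.1
  have hpos : ∀ g ∈ (R3 : Set (G3 N)), 0 < g.1 := fun g hg => hg.1
  have hcN : 0 ≤ cN N := by
    unfold cN
    have h1 : (2 : ℝ) ^ (N + 1) ≤ 3 ^ N + 1 := by
      have : ∀ m : ℕ, (2 : ℝ) ^ (m + 1) ≤ 3 ^ m + 1 := by
        intro m
        induction m with
        | zero => norm_num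
        | succ k ih =>
          have h2 : (1 : ℝ) ≤ 3 ^ k := one_le_pow₀ (by norm_num)
          rw [pow_succ, pow_succ 3 k]
          nlinarith
      exact this N
    linarith
  have hνpos : 0 < ν := by
    have h1 := hw.ν1
    have h2 : (1 : ℝ) ≤ 2 ^ N := one_le_pow₀ (by norm_num)
    nlinarith
  refine ⟨fun g => 2 * cl3 (pos (fun q => (w q : ℂ))) g, ν / 2, ?_, gsm, ?_, ?_⟩
  · refine ⟨gadd, gsmul, gt3, gdiv, gsum, gnz, hzero, hG0, ?_, by linarith, ?_, ?_⟩
    · intro g hg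
      show 2 * cl3 (pos (fun q => (w q : ℂ))) g = 0
      rw [hsW g hg, mul_zero]
    · intro g hg
      have hT := gt3 _ _ _ hG0 hG0 hG0
      rw [(cl2 _ hT).2 g hg, hV0, fmn N _ _ _ hN hWodd hWodd hWodd hWsum hWsum hWsum g.1
        (hodd g hg), hK g.1 (hodd g hg), cl3_res _ hg]
      push_cast
      ring
    · intro μ hμ F hF
      obtain ⟨hFe, hFr⟩ := cl2 F hF
      obtain ⟨z, β, hze, hzo, hzn, hz⟩ := inn N w ν r hN hw (2 * μ) (by linarith) _ hFe
      obtain ⟨hgz, hsz, hvz⟩ := cl1 z hze hzo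
      have hGz := hgood2 _ hgz
      refine ⟨fun g => 2 * cl3 (pos z) g, β / 2, hGz, ?_, ?_⟩
      · intro g hg
        show 2 * cl3 (pos z) g = 0
        rw [hsz g hg, mul_zero]
      · intro g hg
        have hT := gt3 _ _ _ hG0 hG0 hGz
        have hzg := hz g.1 (hpos g hg) (hodd g hg)
        rw [(cl2 _ hT).2 g hg, hV0, hvz, fmn N _ _ _ hN hWodd hWodd (hat_odd hzo) hWsum hWsum
          (hat_sum (exd_sum hze)) g.1 (hodd g hg), cl3_res _ hg]
        show (μ : ℂ) * (2 * cl3 (pos z) g) - _ = _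
        rw [cl3_res _ hg, hFr g hg]
        push_cast at hzg ⊢
        linear_combination hzg
  · have h1 : ((1, fun _ => 1) : G3 N) ∈ (R3 : Set (G3 N)) := by
      refine ⟨by norm_num, odd_one, fun i => ?_⟩
      simp
    show 2 * cl3 (pos (fun q => (w q : ℂ))) ((1, fun _ => 1) : G3 N) = 2
    rw [cl3_res _ h1]
    show 2 * ((w 1 : ℝ) : ℂ) = 2
    rw [hw.one]
    norm_num
  · intro p hp
    show 2 * cl3 (pos (fun q => (w q : ℂ))) ((p, fun _ => 1) : G3 N) = 0
    unfold cl3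
    split_ifs with h
    · have h2 := h.2 ⟨0, by omega⟩
      have h3 : |p| = 1 := by
        rw [← h2]
        simp
      have h4 : p = -1 := by
        rcases (abs_eq (by norm_num : (0 : ℤ) ≤ 1)).1 h3 with h5 | h5
        · exact absurd h5 hp
        · exact h5
      show 2 * pos (fun q => (w q : ℂ)) p = 0
      rw [h4]
      unfold pos
      rw [if_neg (by norm_num), mul_zero]
    · exact mul_zero _

end Pool.Agent.BOX.H95
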